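import Mathlib

/-!
Reduced simplicial chains of the flag complex (clique complex) of a finite graph.
-/

namespace Pool.Agent.MP_a320f3_co

open Finset

variable {V : Type*} [Fintype V] [LinearOrder V] {k : Type*} [Field k]

/-- A chain is a function on the finite sets of vertices with values in `k`; the value at `s` is
the coefficient of the simplex `s`, oriented by the linear order of the vertices.  The boundary:
the coefficient of `t` in `bd c` is the sum, over the vertices `w` outside `t`, of `(-1) ^ p`
times the coefficient of `t ∪ {w}` in `c`, where `p` is the number of elements of `t` below `w`,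
that is the position of `w` in `t ∪ {w}`. -/
def bd (c : Finset V → k) : Finset V → k := fun t =>
  ∑ w ∈ tᶜ, (-1 : k) ^ (t.filter (fun x => x < w)).card * c (insert w t)

/-- `c` is a chain of the flag complex of `G` supported on simplices with `j` vertices, that is
of dimension `j - 1`.  The empty set, with `j = 0`, is the simplex of dimension `-1` of the
augmented chain complex. -/
def IsChain (G : SimpleGraph V) (j : ℕ) (c : Finset V → k) : Prop :=
  ∀ s : Finset V, c s ≠ 0 → G.IsClique (s : Set V) ∧ s.card = j

/-- The flag complex of `G` is acyclic over `k`: in every degree `j - 1 ≥ -1` of the augmented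
chain complex every cycle is a boundary. -/
def IsAcyclic (k : Type*) [Field k] (G : SimpleGraph V) : Prop :=
  ∀ (j : ℕ) (c : Finset V → k), IsChain G j c → bd c = 0 →
    ∃ b : Finset V → k, IsChain G (j + 1) b ∧ bd b = c

end Pool.Agent.MP_a320f3_co
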