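import Mathlib
import Pool.Agent.MP_a320f3_co.Defs

namespace Pool.Agent.MP_a320f3_co

open Finset

variable {V : Type*} [Fintype V] [LinearOrder V] {k : Type*} [Field k]

lemma bd_sub (c d : Finset V → k) : bd (c - d) = bd c - bd d := by
  funext t
  simp only [bd, Pi.sub_apply, mul_sub, Finset.sum_sub_distrib]

lemma bd_add (c d : Finset V → k) : bd (c + d) = bd c + bd d := by
  funext t
  simp only [bd, Pi.add_apply, mul_add, Finset.sum_add_distrib]

lemma bd_neg (c : Finset V → k) : bd (-c) = -bd c := by
  funext t
  simp only [bd, Pi.neg_apply, mul_neg, Finset.sum_neg_distrib]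

lemma bd_zero : bd (0 : Finset V → k) = 0 := by
  funext t
  simp [bd]

/-- cone with apex `q` -/
def cone (q : V) (c : Finset V → k) : Finset V → k := fun s =>
  if q ∈ s then (-1 : k) ^ (s.filter (fun x => x < q)).card * c (s.erase q) else 0

lemma cone_sub (q : V) (c d : Finset V → k) : cone q (c - d) = cone q c - cone q d := by
  funext s
  simp only [cone, Pi.sub_apply]
  split_ifs
  · ring
  · simp

lemma cone_zero (q : V) : cone q (0 : Finset V → k) = 0 := by
  funext s
  simp [cone]

lemma neg_one_pow_mul_self (p : ℕ) : (-1 : k) ^ p * (-1 : k) ^ p = 1 := by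
  rw [← pow_add, ← two_mul, pow_mul]
  simp

lemma filter_lt_insert_card {w q : V} {t : Finset V} (hw : w ∉ t) :
    ((insert w t).filter (fun x => x < q)).card
      = (t.filter (fun x => x < q)).card + (if w < q then 1 else 0) := by
  rw [Finset.filter_insert]
  split_ifs with h
  · rw [Finset.card_insert_of_notMem (by simp [hw])]
  · simp

lemma bd_cone (q : V) (c : Finset V → k) : bd (cone q c) = c - cone q (bd c) := by
  funext t
  simp only [Pi.sub_apply]
  by_cases hq : q ∈ t
  · -- write t = insert q u
    obtain ⟨u, hu, rfl⟩ : ∃ u : Finset V, q ∉ u ∧ t = insert q u :=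
      ⟨t.erase q, by simp, by rw [Finset.insert_erase hq]⟩
    have hcompl : uᶜ = insert q (insert q u)ᶜ := by
      ext x
      simp only [Finset.mem_compl, Finset.mem_insert, not_or]
      constructor
      · intro hx
        by_cases hxq : x = q
        · exact Or.inl hxq
        · exact Or.inr ⟨hxq, hx⟩
      · rintro (rfl | h)
        · exact hu
        · exact h.2
    have hA : bd (cone q c) (insert q u) = ∑ w ∈ (insert q u)ᶜ,
        (-1 : k) ^ ((insert q u).filter (fun x => x < w)).card *
          ((-1 : k) ^ ((insert w (insert q u)).filter (fun x => x < q)).card *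
            c (insert w u)) := by
      unfold bd
      refine Finset.sum_congr rfl fun w hw => ?_
      simp only [Finset.mem_compl, Finset.mem_insert, not_or] at hw
      have h1 : q ∈ insert w (insert q u) := by simp
      have h2 : (insert w (insert q u)).erase q = insert w u := by
        rw [Finset.insert_comm, Finset.erase_insert]
        simp only [Finset.mem_insert, not_or]
        exact ⟨fun h => hw.1 h.symm, hu⟩
      simp only [cone, h1, if_true, h2]
    have hB : cone q (bd c) (insert q u) = (-1 : k) ^ (u.filter (fun x => x < q)).card *
        ((-1 : k) ^ (u.filter (fun x => x < q)).card * c (insert q u) +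
        ∑ w ∈ (insert q u)ᶜ, (-1 : k) ^ (u.filter (fun x => x < w)).card * c (insert w u)) := by
      have h1 : q ∈ insert q u := by simp
      have h3 : ((insert q u).filter (fun x => x < q)).card
          = (u.filter (fun x => x < q)).card := by
        rw [filter_lt_insert_card hu]
        simp
      simp only [cone, h1, if_true, Finset.erase_insert hu, h3]
      congr 1
      unfold bd
      rw [hcompl, Finset.sum_insert (by simp)]
    rw [hA, hB, mul_add, ← mul_assoc, neg_one_pow_mul_self, one_mul, Finset.mul_sum]
    have hC : ∑ w ∈ (insert q u)ᶜ,
        (-1 : k) ^ ((insert q u).filter (fun x => x < w)).card *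
          ((-1 : k) ^ ((insert w (insert q u)).filter (fun x => x < q)).card *
            c (insert w u)) = - ∑ w ∈ (insert q u)ᶜ, (-1 : k) ^ (u.filter (fun x => x < q)).card *
            ((-1 : k) ^ (u.filter (fun x => x < w)).card * c (insert w u)) := by
      rw [← Finset.sum_neg_distrib]
      refine Finset.sum_congr rfl fun w hw => ?_
      simp only [Finset.mem_compl, Finset.mem_insert, not_or] at hw
      have hw' : w ∉ insert q u := by simp [hw.1, hw.2]
      rw [filter_lt_insert_card hu, filter_lt_insert_card hw', filter_lt_insert_card hu]
      rcases lt_or_gt_of_ne hw.1 with h | h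
      · have h' : ¬ q < w := not_lt.mpr h.le
        simp only [h, h', if_true, if_false, lt_irrefl, add_zero, pow_add, pow_one]
        ring
      · have h' : ¬ w < q := not_lt.mpr h.le
        have h'' : q < w := h
        simp only [h', h'', if_true, if_false, lt_irrefl, add_zero, pow_add, pow_one]
        ring
    rw [hC]
    ring
  · have h1 : cone q (bd c) t = 0 := by simp [cone, hq]
    rw [h1, sub_zero]
    unfold bd
    rw [Finset.sum_eq_single q]
    · have h2 : q ∈ insert q t := by simp
      have h3 : ((insert q t).filter (fun x => x < q)).card
          = (t.filter (fun x => x < q)).card := by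
        rw [filter_lt_insert_card hq]
        simp
      simp only [cone, h2, if_true, Finset.erase_insert hq, h3]
      rw [← mul_assoc, neg_one_pow_mul_self, one_mul]
    · intro w _ hwq
      have : q ∉ insert w t := by
        simp only [Finset.mem_insert, not_or]
        exact ⟨fun h => hwq h.symm, hq⟩
      simp [cone, this]
    · intro h
      simp [hq] at h

end Pool.Agent.MP_a320f3_co
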