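import Mathlib
import Pool.Agent.MP_a320f3_co.Defs
import Pool.Agent.MP_a320f3_co.Chains

set_option linter.unusedSectionVars false

namespace Pool.Agent.MP_a320f3_co

open Finset

variable {V : Type*} [Fintype V] [LinearOrder V] {k : Type*} [Field k]

/-- chain supported on cliques with `m` vertices inside `B` -/
def Supp (G : SimpleGraph V) (m : ℕ) (B : Finset V) (c : Finset V → k) : Prop :=
  ∀ s : Finset V, c s ≠ 0 → s ⊆ B ∧ G.IsClique (s : Set V) ∧ s.card = m

/-- there is a nonzero cycle on cliques with `m` vertices inside `B` -/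
def Cyc (k : Type*) [Field k] (G : SimpleGraph V) (m : ℕ) (B : Finset V) : Prop :=
  ∃ c : Finset V → k, Supp G m B c ∧ bd c = 0 ∧ c ≠ 0

lemma Supp.mono {G : SimpleGraph V} {m : ℕ} {B B' : Finset V} {c : Finset V → k}
    (h : Supp G m B c) (hB : B ⊆ B') : Supp G m B' c :=
  fun s hs => ⟨(h s hs).1.trans hB, (h s hs).2⟩

lemma Cyc.mono {G : SimpleGraph V} {m : ℕ} {B B' : Finset V} (h : Cyc k G m B)
    (hB : B ⊆ B') : Cyc k G m B' := by
  obtain ⟨c, h1, h2, h3⟩ := h
  exact ⟨c, h1.mono hB, h2, h3⟩

lemma Supp.sub {G : SimpleGraph V} {m : ℕ} {B : Finset V} {c d : Finset V → k}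
    (hc : Supp G m B c) (hd : Supp G m B d) : Supp G m B (c - d) := by
  intro s hs
  by_cases h : c s = 0
  · by_cases h' : d s = 0
    · exact absurd (by simp [h, h']) hs
    · exact hd s h'
  · exact hc s h

lemma Supp.add {G : SimpleGraph V} {m : ℕ} {B : Finset V} {c d : Finset V → k}
    (hc : Supp G m B c) (hd : Supp G m B d) : Supp G m B (c + d) := by
  intro s hs
  by_cases h : c s = 0
  · by_cases h' : d s = 0
    · exact absurd (by simp [h, h']) hs
    · exact hd s h'
  · exact hc s h

lemma Supp.neg {G : SimpleGraph V} {m : ℕ} {B : Finset V} {c : Finset V → k}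
    (hc : Supp G m B c) : Supp G m B (-c) := by
  intro s hs
  exact hc s (by simpa using hs)

lemma Supp.cone {G : SimpleGraph V} {m : ℕ} {B : Finset V} {c : Finset V → k}
    (hc : Supp G m B c) {q : V} (hq : ∀ x ∈ B, x ≠ q → G.Adj q x) :
    Supp G (m + 1) (insert q B) (cone q c) := by
  intro s hs
  unfold Pool.Agent.MP_a320f3_co.cone at hs
  split_ifs at hs with hqs
  · have hne : c (s.erase q) ≠ 0 := right_ne_zero_of_mul hs
    obtain ⟨h1, h2, h3⟩ := hc _ hne
    refine ⟨?_, ?_, ?_⟩
    · intro x hx
      by_cases hxq : x = q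
      · simp [hxq]
      · exact Finset.mem_insert_of_mem (h1 (Finset.mem_erase.mpr ⟨hxq, hx⟩))
    · rw [← Finset.insert_erase hqs, Finset.coe_insert]
      refine h2.insert fun x hx hqx => ?_
      exact hq x (h1 hx) hqx.symm
    · rw [Finset.card_erase_of_mem hqs] at h3
      have : 0 < s.card := Finset.card_pos.mpr ⟨q, hqs⟩
      omega
  · exact absurd rfl hs

lemma Cyc.susp {G : SimpleGraph V} {m : ℕ} {B : Finset V} (h : Cyc k G m B) {q q' : V}
    (hqq : q ≠ q') (hq : q ∉ B) (hq' : q' ∉ B) (ha : ∀ x ∈ B, G.Adj q x)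
    (ha' : ∀ x ∈ B, G.Adj q' x) : Cyc k G (m + 1) (insert q (insert q' B)) := by
  obtain ⟨c, h1, h2, h3⟩ := h
  refine ⟨cone q c - cone q' c, ?_, ?_, ?_⟩
  · refine Supp.sub ?_ ?_
    · exact (h1.cone fun x hx _ => ha x hx).mono
        (Finset.insert_subset_insert _ (Finset.subset_insert _ _))
    · exact (h1.cone fun x hx _ => ha' x hx).mono (Finset.subset_insert _ _)
  · rw [bd_sub, bd_cone, bd_cone, h2, cone_zero, cone_zero]
    simp
  · intro h0
    obtain ⟨s, hs⟩ : ∃ s, c s ≠ 0 := by
      by_contra hcon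
      push Not at hcon
      exact h3 (funext hcon)
    have hsB := (h1 s hs).1
    have hqs : q ∉ s := fun h => hq (hsB h)
    have hq's : q' ∉ insert q s := by
      simp only [Finset.mem_insert, not_or]
      exact ⟨fun h => hqq h.symm, fun h => hq' (hsB h)⟩
    have := congrFun h0 (insert q s)
    simp only [Pi.sub_apply, Pi.zero_apply, cone, Finset.mem_insert, true_or, if_true,
      Finset.erase_insert hqs] at this
    rw [if_neg (by simpa [Finset.mem_insert] using hq's), sub_zero] at this
    rcases mul_eq_zero.mp this with h | h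
    · exact pow_ne_zero _ (by norm_num) h
    · exact hs h

/-- the simplex `s` as a chain -/
def dl (s : Finset V) : Finset V → k := Pi.single s 1

lemma dl_self (s : Finset V) : (dl s : Finset V → k) s = 1 := by simp [dl]

lemma dl_ne {s t : Finset V} (h : t ≠ s) : (dl s : Finset V → k) t = 0 := by
  simp [dl, h]

lemma supp_dl {G : SimpleGraph V} {s B : Finset V} (hs : s ⊆ B)
    (hc : G.IsClique (s : Set V)) : Supp G s.card B (dl s : Finset V → k) := by
  intro t ht
  by_cases h : t = s
  · subst h; exact ⟨hs, hc, rfl⟩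
  · exact absurd (dl_ne h) ht

lemma bd_dl_empty : bd (dl (∅ : Finset V) : Finset V → k) = 0 := by
  funext t
  unfold bd
  refine Finset.sum_eq_zero fun w _ => ?_
  rw [dl_ne (by simp), mul_zero]

lemma bd_dl_singleton (s : V) : bd (dl {s} : Finset V → k) = dl ∅ := by
  funext t
  by_cases ht : t = ∅
  · subst ht
    rw [dl_self]
    unfold bd
    rw [Finset.sum_eq_single s]
    · simp [dl]
    · intro w _ hw
      rw [dl_ne, mul_zero]
      simpa using hw
    · intro h
      simp at h
  · rw [dl_ne ht]
    unfold bd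
    refine Finset.sum_eq_zero fun w hw => ?_
    rw [dl_ne, mul_zero]
    intro h
    have hw' : w ∉ t := by simpa using hw
    have h1 : (insert w t).card = 1 := by rw [h]; simp
    rw [Finset.card_insert_of_notMem hw'] at h1
    exact ht (Finset.card_eq_zero.mp (by omega))

/-- `dl (insert x s)` is up to sign the cone over `dl s` -/
lemma cone_dl {x : V} {s : Finset V} (hx : x ∉ s) :
    cone x (dl s : Finset V → k)
      = (-1 : k) ^ (s.filter (fun y => y < x)).card • dl (insert x s) := by
  funext t
  simp only [cone, Pi.smul_apply, smul_eq_mul]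
  by_cases ht : t = insert x s
  · subst ht
    rw [if_pos (by simp), Finset.erase_insert hx, filter_lt_insert_card hx, dl_self, dl_self]
    simp
  · rw [dl_ne ht, mul_zero]
    split_ifs with h
    · rw [dl_ne, mul_zero]
      intro h'
      exact ht (by rw [← h', Finset.insert_erase h])
    · rfl

lemma bd_smul (a : k) (c : Finset V → k) : bd (a • c) = a • bd c := by
  funext t
  simp only [bd, Pi.smul_apply, smul_eq_mul, Finset.mul_sum]
  refine Finset.sum_congr rfl fun w _ => ?_
  ring

lemma bd_bd_dl (s : Finset V) : bd (bd (dl s : Finset V → k)) = 0 := by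
  induction s using Finset.induction_on with
  | empty => rw [bd_dl_empty, bd_zero]
  | insert x s hx ih =>
    have h1 : bd (bd (cone x (dl s : Finset V → k))) = 0 := by
      rw [bd_cone, bd_sub, bd_cone, ih, cone_zero]
      simp
    rw [cone_dl hx, bd_smul, bd_smul] at h1
    rcases smul_eq_zero.mp h1 with h | h
    · exact absurd h (pow_ne_zero _ (by norm_num))
    · exact h

lemma supp_bd_dl {G : SimpleGraph V} {s : Finset V} {m : ℕ} (hm : s.card = m + 1)
    (hc : G.IsClique (s : Set V)) : Supp G m s (bd (dl s : Finset V → k)) := by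
  intro t ht
  unfold bd at ht
  obtain ⟨w, hw, hne⟩ := Finset.exists_ne_zero_of_sum_ne_zero ht
  have hw' : w ∉ t := by simpa using hw
  have h1 : insert w t = s := by
    by_contra h
    exact right_ne_zero_of_mul hne (dl_ne h)
  have h2 : t ⊆ s := by rw [← h1]; exact Finset.subset_insert _ _
  refine ⟨h2, hc.subset (by exact_mod_cast h2), ?_⟩
  have h3 : (insert w t).card = m + 1 := by rw [h1, hm]
  rw [Finset.card_insert_of_notMem hw'] at h3
  omega

lemma cyc_of_clique {G : SimpleGraph V} {K : Finset V} {m : ℕ} (hK : G.IsClique (K : Set V))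
    (hm : K.card = m + 1) : Cyc k G m K := by
  obtain ⟨x, hx⟩ : K.Nonempty := by
    rw [← Finset.card_pos]; omega
  have hxs : x ∉ K.erase x := by simp
  have hcl : G.IsClique ((K.erase x : Finset V) : Set V) :=
    hK.subset (by exact_mod_cast Finset.erase_subset x K)
  have hcard : (K.erase x).card = m := by
    rw [Finset.card_erase_of_mem hx]; omega
  refine ⟨cone x (bd (dl (K.erase x))) - dl (K.erase x), ?_, ?_, ?_⟩
  · refine Supp.sub ?_ ?_
    · rcases Nat.eq_zero_or_pos m with h0 | hpos
      · have : K.erase x = ∅ := Finset.card_eq_zero.mp (by omega)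
        rw [this, bd_dl_empty, cone_zero]
        intro s hs
        exact absurd rfl hs
      · obtain ⟨p, rfl⟩ : ∃ p, m = p + 1 := ⟨m - 1, by omega⟩
        have h1 := (supp_bd_dl (k := k) hcard hcl).cone (q := x) (fun y hy _ => by
          have hy' := Finset.mem_erase.mp hy
          exact hK hx hy'.2 (Ne.symm hy'.1))
        rwa [Finset.insert_erase hx] at h1
    · have := supp_dl (k := k) (G := G) (Finset.erase_subset x K) hcl
      rwa [hcard] at this
  · rw [bd_sub, bd_cone, bd_bd_dl, cone_zero]
    simp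
  · intro h0
    have := congrFun h0 (K.erase x)
    simp only [Pi.sub_apply, Pi.zero_apply, cone, hxs, if_false, dl_self] at this
    norm_num at this

/-- `s` and `t` are joined by a 1-chain inside `B` -/
def Joined (k : Type*) [Field k] (G : SimpleGraph V) (B : Finset V) (s t : V) : Prop :=
  ∃ b : Finset V → k, Supp G 2 B b ∧ bd b = dl {s} - dl {t}

lemma Joined.refl {G : SimpleGraph V} {B : Finset V} (s : V) : Joined k G B s s :=
  ⟨0, fun s hs => absurd rfl hs, by rw [bd_zero]; simp⟩

lemma Joined.symm {G : SimpleGraph V} {B : Finset V} {s t : V} (h : Joined k G B s t) :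
    Joined k G B t s := by
  obtain ⟨b, h1, h2⟩ := h
  exact ⟨-b, h1.neg, by rw [bd_neg, h2]; simp⟩

lemma Joined.trans {G : SimpleGraph V} {B : Finset V} {s t u : V} (h : Joined k G B s t)
    (h' : Joined k G B t u) : Joined k G B s u := by
  obtain ⟨b, h1, h2⟩ := h
  obtain ⟨b', h1', h2'⟩ := h'
  exact ⟨b + b', h1.add h1', by rw [bd_add, h2, h2']; simp⟩

lemma Joined.mono {G : SimpleGraph V} {B B' : Finset V} {s t : V} (h : Joined k G B s t)
    (hB : B ⊆ B') : Joined k G B' s t := by
  obtain ⟨b, h1, h2⟩ := h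
  exact ⟨b, h1.mono hB, h2⟩

lemma joined_of_adj {G : SimpleGraph V} {B : Finset V} {s t : V} (h : G.Adj s t)
    (hs : s ∈ B) (ht : t ∈ B) : Joined k G B s t := by
  have h1 : Supp G 1 {s} (dl {s} : Finset V → k) := by
    have := supp_dl (k := k) (G := G) (s := {s}) (B := {s}) (Finset.Subset.refl _) (by simp)
    simpa using this
  refine ⟨cone t (dl {s}), ?_, ?_⟩
  · have h2 := h1.cone (q := t) (fun x hx _ => by
      rw [Finset.mem_singleton.mp hx]; exact h.symm)
    refine h2.mono ?_
    intro x hx
    rcases Finset.mem_insert.mp hx with rfl | hx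
    · exact ht
    · rw [Finset.mem_singleton.mp hx]; exact hs
  · rw [bd_cone, bd_dl_singleton, cone_dl (by simp)]
    simp

lemma Joined.exists_adj {G : SimpleGraph V} {B : Finset V} {s t : V} (h : Joined k G B s t)
    (hst : s ≠ t) : ∃ w ∈ B, G.Adj s w := by
  obtain ⟨b, h1, h2⟩ := h
  have h3 : bd b {s} ≠ 0 := by
    rw [h2]
    simp only [Pi.sub_apply, dl_self]
    rw [dl_ne (by simpa using hst)]
    simp
  unfold bd at h3
  obtain ⟨w, hw, hne⟩ := Finset.exists_ne_zero_of_sum_ne_zero h3
  have hw' : w ≠ s := by simpa using hw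
  obtain ⟨h4, h5, _⟩ := h1 _ (right_ne_zero_of_mul hne)
  exact ⟨w, h4 (by simp), h5 (by simp) (by simp) hw'.symm⟩

lemma cyc_of_joined {G : SimpleGraph V} {B : Finset V} {s t y : V} (h : Joined k G B s t)
    (hst : s ≠ t) (hs : s ∈ B) (ht : t ∈ B) (hy : y ∉ B) (hys : G.Adj y s)
    (hyt : G.Adj y t) : Cyc k G 2 (insert y B) := by
  obtain ⟨b, h1, h2⟩ := h
  have hsup : ∀ x : V, x ∈ B → G.Adj y x → Supp G 2 (insert y B) (cone y (dl {x}) : Finset V → k) := by
    intro x hx hyx
    have h1 : Supp G 1 {x} (dl {x} : Finset V → k) := by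
      have := supp_dl (k := k) (G := G) (s := {x}) (B := {x}) (Finset.Subset.refl _) (by simp)
      simpa using this
    have h2 := h1.cone (q := y) (fun z hz _ => by
      rw [Finset.mem_singleton.mp hz]; exact hyx)
    refine h2.mono ?_
    refine Finset.insert_subset_insert _ ?_
    simpa using hx
  refine ⟨cone y (dl {s}) - cone y (dl {t}) - b, ?_, ?_, ?_⟩
  · exact ((hsup s hs hys).sub (hsup t ht hyt)).sub (h1.mono (Finset.subset_insert _ _))
  · rw [bd_sub, bd_sub, bd_cone, bd_cone, bd_dl_singleton, bd_dl_singleton, h2]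
    simp
  · intro h0
    have := congrFun h0 (insert y {s})
    have hys' : y ∉ ({s} : Finset V) := by
      intro h
      rw [Finset.mem_singleton.mp h] at hy
      exact hy hs
    have hyt' : y ∉ ({t} : Finset V) := by
      intro h
      rw [Finset.mem_singleton.mp h] at hy
      exact hy ht
    have hb : b (insert y {s}) = 0 := by
      by_contra hb
      exact hy ((h1 _ hb).1 (by simp))
    have hne : (insert y {s} : Finset V) ≠ insert y {t} := by
      intro h
      have : s ∈ (insert y {t} : Finset V) := by rw [← h]; simp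
      rcases Finset.mem_insert.mp this with h' | h'
      · exact hys' (by simp [h'])
      · exact hst (by simpa using h')
    simp only [Pi.sub_apply, Pi.zero_apply, cone_dl hys', cone_dl hyt', Pi.smul_apply,
      smul_eq_mul, dl_self, dl_ne hne, hb, mul_zero, mul_one, sub_zero] at this
    exact pow_ne_zero _ (by norm_num) this

end Pool.Agent.MP_a320f3_co
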