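import Mathlib

namespace Pool.Agent.MP_a320f3_co

/-- the maximal number of edges on `m + 1` vertices -/
def T (n : ℕ) : ℕ → ℕ
  | 0 => 0
  | m + 1 => T n m + (m + 1 - m / n)

lemma T_closed {n : ℕ} (hn : 1 ≤ n) (m : ℕ) :
    2 * (n : ℤ) * T n m + (m % n : ℕ) * (n - (m % n : ℕ)) = (n - 1) * m ^ 2 + 2 * n * m := by
  induction m with
  | zero => simp [T]
  | succ m ih =>
    have hlt := Nat.mod_lt m (show n > 0 by omega)
    have hdm := Nat.div_add_mod m n
    have hle : m / n ≤ m := Nat.div_le_self m n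
    have hT : (T n (m + 1) : ℤ) = T n m + (m + 1 - (m / n : ℕ)) := by
      simp only [T]
      push_cast [Nat.cast_sub (show m / n ≤ m + 1 by omega)]
      ring
    rw [hT]
    set q := m / n with hq
    set r := m % n with hr
    have hm : (m : ℤ) = n * q + r := by exact_mod_cast hdm.symm
    by_cases h : r + 1 < n
    · have hr' : (m + 1) % n = r + 1 := by
        have : m + 1 = (r + 1) + n * q := by omega
        rw [this, Nat.add_mul_mod_self_left, Nat.mod_eq_of_lt h]
      rw [hr']
      push_cast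
      rw [hm] at ih ⊢
      linear_combination ih
    · have hrn : r + 1 = n := by omega
      have hr' : (m + 1) % n = 0 := by
        have : m + 1 = n * (q + 1) := by rw [Nat.mul_add]; omega
        rw [this, Nat.mul_mod_right]
      rw [hr']
      have hrn' : (n : ℤ) = r + 1 := by exact_mod_cast hrn.symm
      push_cast
      rw [hm, hrn'] at ih ⊢
      linear_combination ih

lemma T_bound {n : ℕ} (hn : 1 ≤ n) (m : ℕ) :
    2 * (n : ℤ) * T n m ≤ (n - 1) * m ^ 2 + 2 * n * m := by
  have h := T_closed hn m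
  have hlt := Nat.mod_lt m (show n > 0 by omega)
  have h1 : (0 : ℤ) ≤ (m % n : ℕ) := by positivity
  have h2 : (0 : ℤ) ≤ n - (m % n : ℕ) := by
    have : ((m % n : ℕ) : ℤ) < n := by exact_mod_cast hlt
    linarith
  nlinarith [mul_nonneg h1 h2]

lemma T_avg {n : ℕ} (hn : 1 ≤ n) (m : ℕ) :
    2 * T n m ≤ m * (m + 2 - m / n) := by
  have h := T_bound hn m
  have hle : m / n ≤ m + 2 := (Nat.div_le_self m n).trans (by omega)
  have hmul : (n : ℤ) * (m / n : ℕ) ≤ m := by exact_mod_cast Nat.mul_div_le m n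
  have hn' : (0 : ℤ) < n := by exact_mod_cast hn
  zify [hle]
  have hm : (0 : ℤ) ≤ m := by positivity
  have key : (n : ℤ) * (2 * T n m) ≤ n * (m * (m + 2 - (m / n : ℕ))) := by
    nlinarith [mul_le_mul_of_nonneg_left hmul hm]
  have := le_of_mul_le_mul_left key hn'
  push_cast at this ⊢
  exact this

end Pool.Agent.MP_a320f3_co
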