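import Mathlib
import Pool.Agent.MP_a320f3_co.Cyc
import Pool.Agent.MP_a320f3_co.Num

set_option linter.unusedSectionVars false

namespace Pool.Agent.MP_a320f3_co

open Finset

variable {V : Type*} [Fintype V] [LinearOrder V] {k : Type*} [Field k]

/-- The structure of the extremal graphs: `n` classes, distinct classes are completely joined,
class `0` is connected, and the class sizes (class `0` with one vertex less) are balanced. -/
structure StrC (k : Type*) [Field k] (G : SimpleGraph V) (n : ℕ) (A : Finset V) (col : V → ℕ)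
    (r : V) : Prop where
  r_mem : r ∈ A
  col_r : col r = 0
  col_lt : ∀ x ∈ A, col x < n
  adj : ∀ x ∈ A, ∀ y ∈ A, col x ≠ col y → G.Adj x y
  joined : ∀ x ∈ A, col x = 0 → Joined k G (A.filter (fun z => col z = 0)) x r
  bal : ∀ i < n, ∀ j < n, (A.filter (fun z => col z = i)).card + (if j = 0 then 1 else 0) ≤
    (A.filter (fun z => col z = j)).card + 1 + (if i = 0 then 1 else 0)

def Str (k : Type*) [Field k] (G : SimpleGraph V) (n : ℕ) (A : Finset V) : Prop :=
  ∃ (col : V → ℕ) (r : V), StrC k G n A col r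

lemma StrC.class_min {G : SimpleGraph V} {n : ℕ} {A : Finset V} {col : V → ℕ} {r : V}
    (h : StrC k G n A col r) {m : ℕ} (hm : A.card = m + 1) (i : ℕ) (hi : i < n) :
    m / n + (if i = 0 then 1 else 0) ≤ (A.filter (fun z => col z = i)).card := by
  by_contra hcon
  push Not at hcon
  have hsum : A.card = ∑ j ∈ Finset.range n, (A.filter (fun z => col z = j)).card :=
    Finset.card_eq_sum_card_fiberwise fun x hx => by simpa using h.col_lt x hx
  have hlt : ∑ j ∈ Finset.range n, (A.filter (fun z => col z = j)).card <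
      ∑ j ∈ Finset.range n, (m / n + (if j = 0 then 1 else 0)) := by
    refine Finset.sum_lt_sum (fun j hj => ?_) ⟨i, by simpa using hi, hcon⟩
    have := h.bal j (by simpa using hj) i hi
    omega
  have h2 : ∑ j ∈ Finset.range n, (m / n + (if j = 0 then 1 else 0)) = n * (m / n) + 1 := by
    rw [Finset.sum_add_distrib, Finset.sum_const, Finset.card_range, smul_eq_mul,
      Finset.sum_ite_eq' (Finset.range n) 0 (fun _ => 1)]
    have : 0 ∈ Finset.range n := by simp; omega
    simp [this]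
  have h3 := Nat.mul_div_le m n
  omega

/-- a clique through `y` in the neighbourhood classes -/
lemma clique_build {G : SimpleGraph V} {n : ℕ} {A : Finset V} {col : V → ℕ} {r y : V}
    {S : Finset V} (h : StrC k G n A col r) (hS : ∀ x, x ∈ S ↔ x ∈ A ∧ G.Adj y x)
    (hq : ∀ j, 1 ≤ j → j < n → ∃ q ∈ S, col q = j) {s t : V} (hs : s ∈ S) (ht : t ∈ S)
    (hs0 : col s = 0) (ht0 : col t = 0) (hst : G.Adj s t) (j : ℕ) (hj : j < n) :
    ∃ K : Finset V, G.IsClique (K : Set V) ∧ K.card = j + 3 ∧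
      ∀ x ∈ K, x = y ∨ (x ∈ S ∧ col x ≤ j) := by
  induction j with
  | zero =>
    have hys : G.Adj y s := ((hS s).mp hs).2
    have hyt : G.Adj y t := ((hS t).mp ht).2
    refine ⟨{y, s, t}, ?_, ?_, ?_⟩
    · intro a ha b hb hab
      simp only [Finset.coe_insert, Finset.coe_singleton, Set.mem_insert_iff,
        Set.mem_singleton_iff] at ha hb
      rcases ha with rfl | rfl | rfl <;> rcases hb with rfl | rfl | rfl <;>
        first
          | exact absurd rfl hab
          | assumption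
          | exact SimpleGraph.Adj.symm (by assumption)
    · rw [Finset.card_insert_of_notMem, Finset.card_insert_of_notMem, Finset.card_singleton]
      · simpa using hst.ne
      · simp only [Finset.mem_insert, Finset.mem_singleton, not_or]
        exact ⟨hys.ne, hyt.ne⟩
    · intro x hx
      simp only [Finset.mem_insert, Finset.mem_singleton] at hx
      rcases hx with rfl | rfl | rfl
      · exact Or.inl rfl
      · exact Or.inr ⟨hs, hs0.le⟩
      · exact Or.inr ⟨ht, ht0.le⟩
  | succ j ih =>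
    obtain ⟨K, h1, h2, h3⟩ := ih (by omega)
    obtain ⟨q, hqS, hqj⟩ := hq (j + 1) (by omega) hj
    have hadj : ∀ x ∈ K, G.Adj q x := by
      intro x hx
      rcases h3 x hx with rfl | ⟨hxS, hxj⟩
      · exact ((hS q).mp hqS).2.symm
      · exact h.adj q ((hS q).mp hqS).1 x ((hS x).mp hxS).1 (by omega)
    have hqK : q ∉ K := fun hq' => (hadj q hq').ne rfl
    refine ⟨insert q K, ?_, ?_, ?_⟩
    · rw [Finset.coe_insert]
      exact h1.insert fun x hx _ => hadj x hx
    · rw [Finset.card_insert_of_notMem hqK]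
      omega
    · intro x hx
      rcases Finset.mem_insert.mp hx with rfl | hx
      · exact Or.inr ⟨hqS, hqj.le⟩
      · rcases h3 x hx with h4 | ⟨h4, h5⟩
        · exact Or.inl h4
        · exact Or.inr ⟨h4, by omega⟩

lemma no_edge {G : SimpleGraph V} {n : ℕ} (hn : 1 ≤ n) {A : Finset V} {col : V → ℕ} {r y : V}
    {S : Finset V} (h : StrC k G n A col r) (hS : ∀ x, x ∈ S ↔ x ∈ A ∧ G.Adj y x)
    (hcyc : ¬ Cyc k G (n + 1) (insert y A))
    (hq : ∀ j, 1 ≤ j → j < n → ∃ q ∈ S, col q = j) {s t : V} (hs : s ∈ S) (ht : t ∈ S)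
    (hs0 : col s = 0) (ht0 : col t = 0) : ¬ G.Adj s t := by
  intro hst
  obtain ⟨K, h1, h2, h3⟩ := clique_build h hS hq hs ht hs0 ht0 hst (n - 1) (by omega)
  refine hcyc ((cyc_of_clique h1 (by omega)).mono ?_)
  intro x hx
  rcases h3 x hx with rfl | ⟨hxS, _⟩
  · exact Finset.mem_insert_self _ _
  · exact Finset.mem_insert_of_mem ((hS x).mp hxS).1

lemma cyc_build {G : SimpleGraph V} {n : ℕ} {A : Finset V} {col : V → ℕ} {r y : V}
    {S : Finset V} (h : StrC k G n A col r) (hy : y ∉ A)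
    (hS : ∀ x, x ∈ S ↔ x ∈ A ∧ G.Adj y x)
    (hq : ∀ j, 1 ≤ j → j < n → ∃ q ∈ S, ∃ q' ∈ S, q ≠ q' ∧ col q = j ∧ col q' = j)
    {s t : V} (hs : s ∈ S) (ht : t ∈ S)
    (hs0 : col s = 0) (ht0 : col t = 0) (hst : s ≠ t) (j : ℕ) (hj : j < n) :
    Cyc k G (j + 2) (insert y (A.filter (fun x => col x = 0 ∨ (x ∈ S ∧ col x ≤ j)))) := by
  induction j with
  | zero =>
    have hsA := ((hS s).mp hs).1
    have htA := ((hS t).mp ht).1
    have hj1 : Joined k G (A.filter (fun z => col z = 0)) s t :=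
      (h.joined s hsA hs0).trans (h.joined t htA ht0).symm
    have := cyc_of_joined hj1 hst (by simp [hsA, hs0]) (by simp [htA, ht0]) (y := y)
      (by simp [hy]) ((hS s).mp hs).2 ((hS t).mp ht).2
    refine this.mono (Finset.insert_subset_insert _ ?_)
    intro x hx
    simp only [Finset.mem_filter] at hx ⊢
    exact ⟨hx.1, Or.inl hx.2⟩
  | succ j ih =>
    obtain ⟨q, hqS, q', hqS', hqq, hqj, hqj'⟩ := hq (j + 1) (by omega) hj
    have hadj : ∀ p ∈ S, col p = j + 1 →
        ∀ x ∈ insert y (A.filter (fun x => col x = 0 ∨ (x ∈ S ∧ col x ≤ j))), G.Adj p x := by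
      intro p hp hpj x hx
      rcases Finset.mem_insert.mp hx with rfl | hx
      · exact ((hS p).mp hp).2.symm
      · simp only [Finset.mem_filter] at hx
        refine h.adj p ((hS p).mp hp).1 x hx.1 ?_
        rcases hx.2 with h0 | ⟨_, h1⟩ <;> omega
    have hnm : ∀ p ∈ S, col p = j + 1 →
        p ∉ insert y (A.filter (fun x => col x = 0 ∨ (x ∈ S ∧ col x ≤ j))) :=
      fun p hp hpj hmem => (hadj p hp hpj p hmem).ne rfl
    have := (ih (by omega)).susp hqq (hnm q hqS hqj) (hnm q' hqS' hqj') (hadj q hqS hqj)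
      (hadj q' hqS' hqj')
    refine this.mono ?_
    intro x hx
    simp only [Finset.mem_insert, Finset.mem_filter] at hx ⊢
    rcases hx with rfl | rfl | rfl | ⟨hxA, hx⟩
    · exact Or.inr ⟨((hS x).mp hqS).1, Or.inr ⟨hqS, hqj.le⟩⟩
    · exact Or.inr ⟨((hS x).mp hqS').1, Or.inr ⟨hqS', hqj'.le⟩⟩
    · exact Or.inl rfl
    · refine Or.inr ⟨hxA, ?_⟩
      rcases hx with h0 | ⟨h1, h2⟩
      · exact Or.inl h0
      · exact Or.inr ⟨h1, by omega⟩

lemma uniq_zero {G : SimpleGraph V} {n : ℕ} (hn : 1 ≤ n) {A : Finset V} {col : V → ℕ}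
    {r y : V} {S : Finset V} (h : StrC k G n A col r) (hy : y ∉ A)
    (hS : ∀ x, x ∈ S ↔ x ∈ A ∧ G.Adj y x) (hcyc : ¬ Cyc k G (n + 1) (insert y A))
    (hq : ∀ j, 1 ≤ j → j < n → ∃ q ∈ S, ∃ q' ∈ S, q ≠ q' ∧ col q = j ∧ col q' = j)
    {s t : V} (hs : s ∈ S) (ht : t ∈ S) (hs0 : col s = 0) (ht0 : col t = 0) : s = t := by
  by_contra hst
  have h1 := cyc_build h hy hS hq hs ht hs0 ht0 hst (n - 1) (by omega)
  rw [show n - 1 + 2 = n + 1 by omega] at h1
  exact hcyc (h1.mono (Finset.insert_subset_insert _ (Finset.filter_subset _ _)))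

end Pool.Agent.MP_a320f3_co
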