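import Mathlib
import Pool.Agent.MP_a320f3_co.Step

set_option linter.unusedSectionVars false

namespace Pool.Agent.MP_a320f3_co

open Finset

variable {V : Type*} [Fintype V] [LinearOrder V] {k : Type*} [Field k]

/-- balancedness from two-sided bounds -/
lemma bal_of_bounds {A : Finset V} {col : V → ℕ} {n M : ℕ}
    (h : ∀ i < n, M + (if i = 0 then 1 else 0) ≤ (A.filter (fun z => col z = i)).card ∧
      (A.filter (fun z => col z = i)).card ≤ M + 1 + (if i = 0 then 1 else 0)) :
    ∀ i < n, ∀ j < n, (A.filter (fun z => col z = i)).card + (if j = 0 then 1 else 0) ≤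
      (A.filter (fun z => col z = j)).card + 1 + (if i = 0 then 1 else 0) := by
  intro i hi j hj
  have h1 := (h i hi).2
  have h2 := (h j hj).1
  omega

lemma filter_card_insert {A : Finset V} {col col' : V → ℕ} {y : V} (hy : y ∉ A) {j : ℕ}
    (hcol : ∀ x ∈ A, col' x = col x) (hj : col' y = j) (i : ℕ) :
    ((insert y A).filter (fun z => col' z = i)).card
      = (A.filter (fun z => col z = i)).card + (if j = i then 1 else 0) := by
  rw [Finset.filter_insert, hj]
  have h1 : A.filter (fun z => col' z = i) = A.filter (fun z => col z = i) :=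
    Finset.filter_congr fun x hx => by rw [hcol x hx]
  rw [h1]
  split_ifs with h
  · rw [Finset.card_insert_of_notMem (by simp [hy])]
  · simp

/-- case 1: the new vertex has no neighbour in class `j ≥ 1` -/
lemma case_one {G : SimpleGraph V} {n : ℕ} {A : Finset V} {col : V → ℕ}
    {r y : V} {S : Finset V} (h : StrC k G n A col r) {m : ℕ} (hm : A.card = m + 1)
    (hy : y ∉ A) (hS : ∀ x, x ∈ S ↔ x ∈ A ∧ G.Adj y x) {j : ℕ} (hj1 : 1 ≤ j) (hjn : j < n)
    (hno : ∀ q ∈ S, col q ≠ j) :
    S.card ≤ m + 1 - m / n ∧ (S.card = m + 1 - m / n → Str k G n (insert y A)) := by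
  have hle : m / n ≤ m := Nat.div_le_self m n
  have hmin := h.class_min hm j hjn
  rw [if_neg (by omega)] at hmin
  have hsub : S ⊆ A \ A.filter (fun z => col z = j) := by
    intro x hx
    simp only [Finset.mem_sdiff, Finset.mem_filter, not_and]
    exact ⟨((hS x).mp hx).1, fun _ => hno x hx⟩
  have hcard : (A \ A.filter (fun z => col z = j)).card
      = m + 1 - (A.filter (fun z => col z = j)).card := by
    rw [Finset.card_sdiff_of_subset (Finset.filter_subset _ _), hm]
  have hSle := Finset.card_le_card hsub
  rw [hcard] at hSle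
  refine ⟨by omega, fun heq => ?_⟩
  have hclle : (A.filter (fun z => col z = j)).card ≤ m + 1 := by
    rw [← hm]; exact Finset.card_filter_le _ _
  have hcl : (A.filter (fun z => col z = j)).card = m / n := by omega
  have hSeq : S = A \ A.filter (fun z => col z = j) :=
    Finset.eq_of_subset_of_card_le hsub (by rw [hcard]; omega)
  have hSmem : ∀ x ∈ A, col x ≠ j → G.Adj y x := by
    intro x hx hxj
    have : x ∈ S := by
      rw [hSeq]
      simp only [Finset.mem_sdiff, Finset.mem_filter, not_and]
      exact ⟨hx, fun _ => hxj⟩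
    exact ((hS x).mp this).2
  have hcol : ∀ x ∈ A, Function.update col y j x = col x := by
    intro x hx
    rw [Function.update_of_ne]
    rintro rfl
    exact hy hx
  have hcy : Function.update col y j y = j := Function.update_self ..
  refine ⟨Function.update col y j, r, ?_⟩
  constructor
  · exact Finset.mem_insert_of_mem h.r_mem
  · rw [hcol r h.r_mem, h.col_r]
  · intro x hx
    rcases Finset.mem_insert.mp hx with rfl | hx
    · rw [hcy]; exact hjn
    · rw [hcol x hx]; exact h.col_lt x hx
  · intro x hx z hz hxz
    rcases Finset.mem_insert.mp hx with hxy | hxA <;>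
      rcases Finset.mem_insert.mp hz with hzy | hzA
    · rw [hxy, hzy] at hxz
      exact absurd rfl hxz
    · rw [hxy, hcy, hcol z hzA] at hxz
      rw [hxy]
      exact hSmem z hzA (Ne.symm hxz)
    · rw [hzy, hcy, hcol x hxA] at hxz
      rw [hzy]
      exact (hSmem x hxA hxz).symm
    · rw [hcol x hxA, hcol z hzA] at hxz
      exact h.adj x hxA z hzA hxz
  · intro x hx hx0
    rcases Finset.mem_insert.mp hx with rfl | hx
    · rw [hcy] at hx0; omega
    · rw [hcol x hx] at hx0
      refine (h.joined x hx hx0).mono ?_
      intro z hz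
      simp only [Finset.mem_filter] at hz ⊢
      exact ⟨Finset.mem_insert_of_mem hz.1, by rw [hcol z hz.1]; exact hz.2⟩
  · refine bal_of_bounds (M := m / n) fun i hi => ?_
    rw [filter_card_insert hy hcol hcy]
    have h1 := h.class_min hm i hi
    have h2 := h.bal i hi j hjn
    rw [if_neg (show ¬ j = 0 by omega), hcl] at h2
    by_cases hij : j = i
    · subst hij
      rw [if_pos rfl, hcl, if_neg (by omega)]
      omega
    · rw [if_neg hij]
      omega

/-- case 2: the new vertex has at most one neighbour in class `0` -/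
lemma case_two {G : SimpleGraph V} {n : ℕ} (hn : 1 ≤ n) {A : Finset V} {col : V → ℕ}
    {r y : V} {S : Finset V} (h : StrC k G n A col r) {m : ℕ} (hm : A.card = m + 1)
    (hy : y ∉ A) (hS : ∀ x, x ∈ S ↔ x ∈ A ∧ G.Adj y x)
    (hone : ∀ s ∈ S, ∀ t ∈ S, col s = 0 → col t = 0 → s = t) :
    S.card ≤ m + 1 - m / n ∧ (S.card = m + 1 - m / n → Str k G n (insert y A)) := by
  have hle : m / n ≤ m := Nat.div_le_self m n
  have hmin := h.class_min hm 0 (by omega)
  rw [if_pos rfl] at hmin
  have hclle : (A.filter (fun z => col z = 0)).card ≤ m + 1 := by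
    rw [← hm]; exact Finset.card_filter_le _ _
  have hS0 : (S.filter (fun z => col z = 0)).card ≤ 1 := by
    rw [Finset.card_le_one]
    intro a ha b hb
    simp only [Finset.mem_filter] at ha hb
    exact hone a ha.1 b hb.1 ha.2 hb.2
  have hS1 : (S.filter (fun z => ¬ col z = 0)) ⊆ A \ A.filter (fun z => col z = 0) := by
    intro x hx
    simp only [Finset.mem_filter] at hx
    simp only [Finset.mem_sdiff, Finset.mem_filter, not_and]
    exact ⟨((hS x).mp hx.1).1, fun _ => hx.2⟩
  have hcard : (A \ A.filter (fun z => col z = 0)).card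
      = m + 1 - (A.filter (fun z => col z = 0)).card := by
    rw [Finset.card_sdiff_of_subset (Finset.filter_subset _ _), hm]
  have hS1le := Finset.card_le_card hS1
  rw [hcard] at hS1le
  have hsplit := Finset.card_filter_add_card_filter_not (s := S) (fun z => col z = 0)
  refine ⟨by omega, fun heq => ?_⟩
  have hcl : (A.filter (fun z => col z = 0)).card = m / n + 1 := by omega
  have hS0' : (S.filter (fun z => col z = 0)).card = 1 := by omega
  have hS1eq : (S.filter (fun z => ¬ col z = 0)) = A \ A.filter (fun z => col z = 0) :=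
    Finset.eq_of_subset_of_card_le hS1 (by rw [hcard]; omega)
  obtain ⟨t, ht⟩ := Finset.card_eq_one.mp hS0'
  have htS : t ∈ S ∧ col t = 0 := by
    have : t ∈ S.filter (fun z => col z = 0) := by rw [ht]; simp
    simpa using this
  have htA := ((hS t).mp htS.1).1
  have hyt := ((hS t).mp htS.1).2
  have hSmem : ∀ x ∈ A, col x ≠ 0 → G.Adj y x := by
    intro x hx hxj
    have : x ∈ S.filter (fun z => ¬ col z = 0) := by
      rw [hS1eq]
      simp only [Finset.mem_sdiff, Finset.mem_filter, not_and]
      exact ⟨hx, fun _ => hxj⟩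
    exact ((hS x).mp (Finset.mem_filter.mp this).1).2
  have hcol : ∀ x ∈ A, Function.update col y 0 x = col x := by
    intro x hx
    rw [Function.update_of_ne]
    rintro rfl
    exact hy hx
  have hcy : Function.update col y 0 y = 0 := Function.update_self ..
  have hmono : A.filter (fun z => col z = 0) ⊆
      (insert y A).filter (fun z => Function.update col y 0 z = 0) := by
    intro z hz
    simp only [Finset.mem_filter] at hz ⊢
    exact ⟨Finset.mem_insert_of_mem hz.1, by rw [hcol z hz.1]; exact hz.2⟩
  refine ⟨Function.update col y 0, r, ?_⟩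
  constructor
  · exact Finset.mem_insert_of_mem h.r_mem
  · rw [hcol r h.r_mem, h.col_r]
  · intro x hx
    rcases Finset.mem_insert.mp hx with rfl | hx
    · rw [hcy]; omega
    · rw [hcol x hx]; exact h.col_lt x hx
  · intro x hx z hz hxz
    rcases Finset.mem_insert.mp hx with hxy | hxA <;>
      rcases Finset.mem_insert.mp hz with hzy | hzA
    · rw [hxy, hzy] at hxz
      exact absurd rfl hxz
    · rw [hxy, hcy, hcol z hzA] at hxz
      rw [hxy]
      exact hSmem z hzA (Ne.symm hxz)
    · rw [hzy, hcy, hcol x hxA] at hxz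
      rw [hzy]
      exact (hSmem x hxA hxz).symm
    · rw [hcol x hxA, hcol z hzA] at hxz
      exact h.adj x hxA z hzA hxz
  · intro x hx hx0
    rcases Finset.mem_insert.mp hx with rfl | hx
    · refine (joined_of_adj hyt ?_ ?_).trans ((h.joined t htA htS.2).mono hmono)
      · simp
      · exact hmono (by simp [htA, htS.2])
    · rw [hcol x hx] at hx0
      exact (h.joined x hx hx0).mono hmono
  · refine bal_of_bounds (M := m / n) fun i hi => ?_
    rw [filter_card_insert hy hcol hcy]
    have h1 := h.class_min hm i hi
    have h2 := h.bal i hi 0 (by omega)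
    rw [if_pos rfl, hcl] at h2
    by_cases hij : 0 = i
    · subst hij
      simp only [if_true] at h1 h2 ⊢
      omega
    · rw [if_neg hij]
      omega

end Pool.Agent.MP_a320f3_co
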