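import Mathlib
import Pool.Agent.MP_a320f3_co.Key

set_option linter.unusedSectionVars false

namespace Pool.Agent.MP_a320f3_co

open Finset

variable {V : Type*} [Fintype V] [LinearOrder V] {k : Type*} [Field k]

/-- case 3: two neighbours in class `0`, exactly one neighbour in class `j ≥ 1` -/
lemma case_three {G : SimpleGraph V} {n : ℕ} {A : Finset V} {col : V → ℕ}
    {r y : V} {S : Finset V} (h : StrC k G n A col r) {m : ℕ} (hm : A.card = m + 1)
    (hy : y ∉ A) (hS : ∀ x, x ∈ S ↔ x ∈ A ∧ G.Adj y x)
    (hne : ∀ s ∈ S, ∀ t ∈ S, col s = 0 → col t = 0 → ¬ G.Adj s t)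
    {s t : V} (hs : s ∈ S) (ht : t ∈ S) (hs0 : col s = 0) (ht0 : col t = 0) (hst : s ≠ t)
    {j : ℕ} (hj1 : 1 ≤ j) (hjn : j < n) {q : V} (hq : q ∈ S) (hqj : col q = j)
    (huq : ∀ p ∈ S, col p = j → p = q) :
    S.card ≤ m + 1 - m / n ∧ (S.card = m + 1 - m / n → Str k G n (insert y A)) := by
  have hle : m / n ≤ m := Nat.div_le_self m n
  have hmin := h.class_min hm j hjn
  rw [if_neg (by omega)] at hmin
  obtain ⟨c, hcf, hsc⟩ := ((h.joined s ((hS s).mp hs).1 hs0).trans
    (h.joined t ((hS t).mp ht).1 ht0).symm).exists_adj hst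
  obtain ⟨hcA, hc0⟩ := Finset.mem_filter.mp hcf
  have hcS : c ∉ S := fun hc => hne s hs c hc hs0 hc0 hsc
  have hccl : c ∉ A.filter (fun z => col z = j) := by
    simp only [Finset.mem_filter, not_and]
    intro _; omega
  have hcard1 : (insert c (A.filter (fun z => col z = j))).card
      = (A.filter (fun z => col z = j)).card + 1 := Finset.card_insert_of_notMem hccl
  have hsubA : insert c (A.filter (fun z => col z = j)) ⊆ A := by
    intro x hx
    rcases Finset.mem_insert.mp hx with rfl | hx
    · exact hcA
    · exact (Finset.mem_filter.mp hx).1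
  have hcard : (A \ insert c (A.filter (fun z => col z = j))).card
      = m + 1 - ((A.filter (fun z => col z = j)).card + 1) := by
    rw [Finset.card_sdiff_of_subset hsubA, hm, hcard1]
  have hcl1 : (A.filter (fun z => col z = j)).card + 1 ≤ m + 1 := by
    rw [← hcard1, ← hm]; exact Finset.card_le_card hsubA
  have hsub : S.erase q ⊆ A \ insert c (A.filter (fun z => col z = j)) := by
    intro x hx
    obtain ⟨hxq, hxS⟩ := Finset.mem_erase.mp hx
    simp only [Finset.mem_sdiff, Finset.mem_insert, Finset.mem_filter, not_or, not_and]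
    refine ⟨((hS x).mp hxS).1, ?_, fun _ hxj => hxq (huq x hxS hxj)⟩
    rintro rfl
    exact hcS hxS
  have hSle := Finset.card_le_card hsub
  have hSe : (S.erase q).card = S.card - 1 := Finset.card_erase_of_mem hq
  have hSpos : 0 < S.card := Finset.card_pos.mpr ⟨q, hq⟩
  rw [hcard, hSe] at hSle
  refine ⟨by omega, fun heq => ?_⟩
  have hcl : (A.filter (fun z => col z = j)).card = m / n := by omega
  have hSeq : S.erase q = A \ insert c (A.filter (fun z => col z = j)) :=
    Finset.eq_of_subset_of_card_le hsub (by rw [hcard, hSe]; omega)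
  have hSmem : ∀ x ∈ A, x ≠ c → col x ≠ j → x ∈ S := by
    intro x hx hxc hxj
    have : x ∈ S.erase q := by
      rw [hSeq]
      simp only [Finset.mem_sdiff, Finset.mem_insert, Finset.mem_filter, not_or, not_and]
      exact ⟨hx, hxc, fun _ => hxj⟩
    exact (Finset.mem_erase.mp this).2
  have hyadj : ∀ x ∈ A, x ≠ c → col x ≠ j → G.Adj y x :=
    fun x hx hxc hxj => ((hS x).mp (hSmem x hx hxc hxj)).2
  -- every vertex of class 0 other than `c` is adjacent to `c`
  have hcadj : ∀ x ∈ A, col x = 0 → x ≠ c → G.Adj x c := by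
    intro x hx hx0 hxc
    have hxS : x ∈ S := hSmem x hx hxc (by omega)
    obtain ⟨w, hw, hxw⟩ := ((h.joined x hx hx0).trans (h.joined c hcA hc0).symm).exists_adj hxc
    obtain ⟨hwA, hw0⟩ := Finset.mem_filter.mp hw
    by_cases hwc : w = c
    · rw [← hwc]; exact hxw
    · exact absurd hxw (hne x hxS w (hSmem w hwA hwc (by omega)) hx0 hw0)
  have hycne : y ≠ c := by rintro rfl; exact hy hcA
  set col' : V → ℕ := fun x => if x = y ∨ x = c ∨ col x = j then 0 else
    if col x = 0 then j else col x with hcol'
  have e0 : ∀ x, (x = y ∨ x = c ∨ col x = j) → col' x = 0 := fun x hx => by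
    simp only [hcol', if_pos hx]
  have e1 : ∀ x, ¬ (x = y ∨ x = c ∨ col x = j) → col x = 0 → col' x = j := fun x hx hx0 => by
    simp only [hcol', if_neg hx, if_pos hx0]
  have e2 : ∀ x, ¬ (x = y ∨ x = c ∨ col x = j) → col x ≠ 0 → col' x = col x :=
    fun x hx hx0 => by simp only [hcol', if_neg hx, if_neg hx0]
  have z0 : ∀ x, col' x = 0 ↔ (x = y ∨ x = c ∨ col x = j) := by
    intro x
    refine ⟨fun hx => ?_, e0 x⟩
    by_contra hcon
    by_cases hx0 : col x = 0
    · rw [e1 x hcon hx0] at hx; omega
    · rw [e2 x hcon hx0] at hx; exact hx0 hx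
  -- main adjacency facts
  have adjP : ∀ x ∈ insert y A, ∀ z ∈ insert y A, (x = y ∨ x = c ∨ col x = j) →
      ¬ (z = y ∨ z = c ∨ col z = j) → G.Adj x z := by
    intro x hx z hz hP hnP
    simp only [not_or] at hnP
    obtain ⟨hzy, hzc, hzj⟩ := hnP
    have hzA : z ∈ A := by
      rcases Finset.mem_insert.mp hz with h' | h'
      · exact absurd h' hzy
      · exact h'
    by_cases hxy : x = y
    · rw [hxy]; exact hyadj z hzA hzc hzj
    have hxA : x ∈ A := by
      rcases Finset.mem_insert.mp hx with h' | h'
      · exact absurd h' hxy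
      · exact h'
    by_cases hxc : x = c
    · rw [hxc]
      by_cases hz0 : col z = 0
      · exact (hcadj z hzA hz0 hzc).symm
      · exact h.adj c hcA z hzA (by rw [hc0]; exact Ne.symm hz0)
    · have hxj : col x = j := by
        rcases hP with h' | h' | h'
        · exact absurd h' hxy
        · exact absurd h' hxc
        · exact h'
      exact h.adj x hxA z hzA (by rw [hxj]; exact Ne.symm hzj)
  have f0 : (insert y A).filter (fun z => col' z = 0)
      = insert y (insert c (A.filter (fun z => col z = j))) := by
    ext x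
    simp only [Finset.mem_filter, Finset.mem_insert, z0]
    constructor
    · rintro ⟨hx, hP⟩
      rcases hP with h' | h' | h'
      · exact Or.inl h'
      · exact Or.inr (Or.inl h')
      · rcases hx with h'' | h''
        · exact Or.inl h''
        · exact Or.inr (Or.inr ⟨h'', h'⟩)
    · rintro (h' | h' | ⟨h', h''⟩)
      · exact ⟨Or.inl h', Or.inl h'⟩
      · exact ⟨Or.inr (by rw [h']; exact hcA), Or.inr (Or.inl h')⟩
      · exact ⟨Or.inr h', Or.inr (Or.inr h'')⟩
  have fj : (insert y A).filter (fun z => col' z = j) = (A.filter (fun z => col z = 0)).erase c := by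
    ext x
    simp only [Finset.mem_filter, Finset.mem_insert, Finset.mem_erase]
    constructor
    · rintro ⟨hx, hxj⟩
      have hnP : ¬ (x = y ∨ x = c ∨ col x = j) := fun hP => by
        rw [e0 x hP] at hxj; omega
      have hx0 : col x = 0 := by
        by_contra hx0
        rw [e2 x hnP hx0] at hxj
        exact hnP (Or.inr (Or.inr hxj))
      simp only [not_or] at hnP
      rcases hx with h' | h'
      · exact absurd h' hnP.1
      · exact ⟨hnP.2.1, h', hx0⟩
    · rintro ⟨hxc, hxA, hx0⟩
      refine ⟨Or.inr hxA, e1 x ?_ hx0⟩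
      simp only [not_or]
      refine ⟨?_, hxc, by omega⟩
      rintro rfl
      exact hy hxA
  have fi : ∀ i, i ≠ 0 → i ≠ j → (insert y A).filter (fun z => col' z = i)
      = A.filter (fun z => col z = i) := by
    intro i hi0 hij
    ext x
    simp only [Finset.mem_filter, Finset.mem_insert]
    constructor
    · rintro ⟨hx, hxi⟩
      have hnP : ¬ (x = y ∨ x = c ∨ col x = j) := fun hP => by
        rw [e0 x hP] at hxi; exact hi0 hxi.symm
      have hx0 : col x ≠ 0 := by
        intro hx0
        rw [e1 x hnP hx0] at hxi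
        exact hij hxi.symm
      rw [e2 x hnP hx0] at hxi
      simp only [not_or] at hnP
      rcases hx with h' | h'
      · exact absurd h' hnP.1
      · exact ⟨h', hxi⟩
    · rintro ⟨hxA, hxi⟩
      refine ⟨Or.inr hxA, ?_⟩
      rw [e2 x ?_ (by rw [hxi]; exact hi0)]
      · exact hxi
      · simp only [not_or]
        refine ⟨?_, ?_, by rw [hxi]; exact hij⟩
        · rintro rfl; exact hy hxA
        · rintro rfl; exact hi0 (by rw [← hxi, hc0])
  have c0 : ((insert y A).filter (fun z => col' z = 0)).card = m / n + 2 := by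
    rw [f0, Finset.card_insert_of_notMem, hcard1, hcl]
    simp only [Finset.mem_insert, Finset.mem_filter, not_or, not_and]
    exact ⟨hycne, fun h' => absurd h' hy⟩
  have cj : ((insert y A).filter (fun z => col' z = j)).card
      = (A.filter (fun z => col z = 0)).card - 1 := by
    rw [fj, Finset.card_erase_of_mem hcf]
  have hqA : q ∈ A := ((hS q).mp hq).1
  have hyq : G.Adj y q := ((hS q).mp hq).2
  refine ⟨col', c, ?_⟩
  constructor
  · exact Finset.mem_insert_of_mem hcA
  · exact e0 c (Or.inr (Or.inl rfl))
  · intro x hx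
    by_cases hP : x = y ∨ x = c ∨ col x = j
    · rw [e0 x hP]; omega
    · by_cases hx0 : col x = 0
      · rw [e1 x hP hx0]; exact hjn
      · rw [e2 x hP hx0]
        simp only [not_or] at hP
        rcases Finset.mem_insert.mp hx with h' | h'
        · exact absurd h' hP.1
        · exact h.col_lt x h'
  · intro x hx z hz hxz
    by_cases hPx : x = y ∨ x = c ∨ col x = j
    · by_cases hPz : z = y ∨ z = c ∨ col z = j
      · rw [e0 x hPx, e0 z hPz] at hxz
        exact absurd rfl hxz
      · exact adjP x hx z hz hPx hPz
    · by_cases hPz : z = y ∨ z = c ∨ col z = j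
      · exact (adjP z hz x hx hPz hPx).symm
      · have hPx' := hPx
        have hPz' := hPz
        simp only [not_or] at hPx hPz
        have hxA : x ∈ A := by
          rcases Finset.mem_insert.mp hx with h' | h'
          · exact absurd h' hPx.1
          · exact h'
        have hzA : z ∈ A := by
          rcases Finset.mem_insert.mp hz with h' | h'
          · exact absurd h' hPz.1
          · exact h'
        refine h.adj x hxA z hzA fun hcc => hxz ?_
        by_cases hx0 : col x = 0
        · rw [e1 x hPx' hx0, e1 z hPz' (by rw [← hcc]; exact hx0)]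
        · rw [e2 x hPx' hx0, e2 z hPz' (by rw [← hcc]; exact hx0), hcc]
  · intro x hx hx0
    rw [f0]
    have hP := (z0 x).mp hx0
    have hqmem : q ∈ insert y (insert c (A.filter (fun z => col z = j))) := by
      simp [hqA, hqj]
    have hcmem : c ∈ insert y (insert c (A.filter (fun z => col z = j))) := by simp
    by_cases hxy : x = y
    · rw [hxy]
      refine (joined_of_adj hyq (by simp) hqmem).trans (joined_of_adj ?_ hqmem hcmem)
      exact h.adj q hqA c hcA (by rw [hqj, hc0]; omega)
    by_cases hxc : x = c
    · rw [hxc]; exact Joined.refl c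
    · have hxj : col x = j := by
        rcases hP with h' | h' | h'
        · exact absurd h' hxy
        · exact absurd h' hxc
        · exact h'
      have hxA : x ∈ A := by
        rcases Finset.mem_insert.mp hx with h' | h'
        · exact absurd h' hxy
        · exact h'
      refine joined_of_adj ?_ (by simp [hxA, hxj]) hcmem
      exact h.adj x hxA c hcA (by rw [hxj, hc0]; omega)
  · refine bal_of_bounds (M := m / n) fun i hi => ?_
    have b0 := h.class_min hm 0 (by omega)
    have b0' := h.bal 0 (by omega) j hjn
    rw [if_pos rfl] at b0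
    rw [if_neg (by omega), if_pos rfl, hcl] at b0'
    by_cases hi0 : i = 0
    · subst hi0
      rw [c0, if_pos rfl]
      omega
    · by_cases hij : i = j
      · rw [hij, cj, if_neg (by omega)]
        omega
      · rw [fi i hi0 hij, if_neg hi0]
        have h1 := h.class_min hm i hi
        have h2 := h.bal i hi j hjn
        rw [if_neg hi0] at h1 h2
        rw [if_neg (by omega), hcl] at h2
        omega

end Pool.Agent.MP_a320f3_co
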