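import Mathlib
import Pool.Agent.MP_a320f3_co.Three

set_option linter.unusedSectionVars false

namespace Pool.Agent.MP_a320f3_co

open Finset

variable {V : Type*} [Fintype V] [LinearOrder V] {k : Type*} [Field k]

lemma key {G : SimpleGraph V} {n : ℕ} (hn : 1 ≤ n) {A : Finset V} {y : V} {S : Finset V}
    (h : Str k G n A) {m : ℕ} (hm : A.card = m + 1) (hy : y ∉ A)
    (hS : ∀ x, x ∈ S ↔ x ∈ A ∧ G.Adj y x) (hcyc : ¬ Cyc k G (n + 1) (insert y A)) :
    S.card ≤ m + 1 - m / n ∧ (S.card = m + 1 - m / n → Str k G n (insert y A)) := by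
  obtain ⟨col, r, h⟩ := h
  by_cases h1 : ∃ j, 1 ≤ j ∧ j < n ∧ ∀ q ∈ S, col q ≠ j
  · obtain ⟨j, hj1, hjn, hno⟩ := h1
    exact case_one h hm hy hS hj1 hjn hno
  push Not at h1
  have hne : ∀ s ∈ S, ∀ t ∈ S, col s = 0 → col t = 0 → ¬ G.Adj s t :=
    fun s hs t ht hs0 ht0 => no_edge hn h hS hcyc h1 hs ht hs0 ht0
  by_cases h2 : ∀ s ∈ S, ∀ t ∈ S, col s = 0 → col t = 0 → s = t
  · exact case_two hn h hm hy hS h2
  push Not at h2
  obtain ⟨s, hs, t, ht, hs0, ht0, hst⟩ := h2
  by_cases h3 : ∀ j, 1 ≤ j → j < n → ∃ q ∈ S, ∃ q' ∈ S, q ≠ q' ∧ col q = j ∧ col q' = j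
  · exact absurd (uniq_zero hn h hy hS hcyc h3 hs ht hs0 ht0) hst
  push Not at h3
  obtain ⟨j, hj1, hjn, huq⟩ := h3
  obtain ⟨q, hq, hqj⟩ := h1 j hj1 hjn
  refine case_three h hm hy hS hne hs ht hs0 ht0 hst hj1 hjn hq hqj fun p hp hpj => ?_
  by_contra hpq
  exact huq p hp q hq hpq hpj hqj

open Classical in
/-- degree inside `A` -/
noncomputable def dg (G : SimpleGraph V) (A : Finset V) (y : V) : ℕ :=
  (A.filter (fun x => G.Adj y x)).card

/-- degree sum inside `A` -/
noncomputable def E2 (G : SimpleGraph V) (A : Finset V) : ℕ := ∑ y ∈ A, dg G A y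

lemma E2_insert {G : SimpleGraph V} {A : Finset V} {y : V} (hy : y ∉ A) :
    E2 G (insert y A) = E2 G A + 2 * dg G A y := by
  classical
  unfold E2
  rw [Finset.sum_insert hy]
  have h1 : dg G (insert y A) y = dg G A y := by
    unfold dg
    rw [Finset.filter_insert, if_neg (G.irrefl)]
  have h2 : ∀ x ∈ A, dg G (insert y A) x = dg G A x + (if G.Adj y x then 1 else 0) := by
    intro x hx
    unfold dg
    rw [Finset.filter_insert]
    by_cases hxy : G.Adj x y
    · rw [if_pos hxy, if_pos hxy.symm, Finset.card_insert_of_notMem (by simp [hy])]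
    · rw [if_neg hxy, if_neg (fun h' => hxy h'.symm), add_zero]
  rw [h1, Finset.sum_congr rfl h2, Finset.sum_add_distrib]
  have h3 : ∑ x ∈ A, (if G.Adj y x then 1 else 0) = dg G A y := by
    unfold dg
    rw [Finset.card_filter]
  rw [h3]
  ring

lemma E2_even (G : SimpleGraph V) (A : Finset V) : ∃ e, E2 G A = 2 * e := by
  induction A using Finset.induction_on with
  | empty => exact ⟨0, by simp [E2]⟩
  | insert y A hy ih =>
    obtain ⟨e, he⟩ := ih
    exact ⟨e + dg G A y, by rw [E2_insert hy, he]; ring⟩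

lemma E2_erase {G : SimpleGraph V} {A : Finset V} {y : V} (hy : y ∈ A) :
    E2 G A = E2 G (A.erase y) + 2 * dg G A y := by
  have h := E2_insert (G := G) (Finset.notMem_erase y A)
  rw [Finset.insert_erase hy] at h
  rw [h]
  congr 2
  classical
  unfold dg
  congr 1
  ext x
  simp only [Finset.mem_filter, Finset.mem_erase]
  constructor
  · rintro ⟨⟨_, h1⟩, h2⟩; exact ⟨h1, h2⟩
  · rintro ⟨h1, h2⟩
    exact ⟨⟨h2.ne', h1⟩, h2⟩

lemma sum_erase (G : SimpleGraph V) (A : Finset V) :
    ∑ y ∈ A, E2 G (A.erase y) + 2 * E2 G A = A.card * E2 G A := by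
  have h : ∑ y ∈ A, E2 G A = ∑ y ∈ A, (E2 G (A.erase y) + 2 * dg G A y) :=
    Finset.sum_congr rfl fun y hy => E2_erase hy
  rw [Finset.sum_add_distrib, ← Finset.mul_sum, Finset.sum_const, smul_eq_mul] at h
  rw [h]
  rfl

lemma str_singleton {G : SimpleGraph V} {n : ℕ} (hn : 1 ≤ n) (x : V) :
    Str k G n ({x} : Finset V) := by
  refine ⟨fun _ => 0, x, ?_⟩
  constructor
  · simp
  · rfl
  · intro _ _; omega
  · intro a _ b _ hab
    exact absurd rfl hab
  · intro a ha _
    rw [Finset.mem_singleton.mp ha]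
    exact Joined.refl x
  · intro i _ j _
    by_cases hi : i = 0
    · subst hi
      by_cases hj : j = 0
      · subst hj; simp
      · simp [hj]
    · have : ({x} : Finset V).filter (fun _ => (0 : ℕ) = i) = ∅ := by
        rw [Finset.filter_eq_empty_iff]
        intro a _ h0
        exact hi h0.symm
      rw [this, if_neg hi]
      split_ifs <;> simp

theorem main {G : SimpleGraph V} {n : ℕ} (hn : 1 ≤ n) (m : ℕ) (A : Finset V)
    (hA : A.card = m + 1) (hcyc : ¬ Cyc k G (n + 1) A) :
    E2 G A ≤ 2 * T n m ∧ (E2 G A = 2 * T n m → Str k G n A) := by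
  induction m generalizing A with
  | zero =>
    obtain ⟨x, rfl⟩ := Finset.card_eq_one.mp hA
    refine ⟨?_, fun _ => str_singleton hn x⟩
    simp [E2, dg, Finset.filter_singleton]
  | succ m ih =>
    have hcardE : ∀ y ∈ A, (A.erase y).card = m + 1 := by
      intro y hy
      rw [Finset.card_erase_of_mem hy]; omega
    have hIH : ∀ y ∈ A, E2 G (A.erase y) ≤ 2 * T n m ∧
        (E2 G (A.erase y) = 2 * T n m → Str k G n (A.erase y)) := fun y hy =>
      ih (A.erase y) (hcardE y hy) fun hc => hcyc (hc.mono (Finset.erase_subset y A))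
    have hTs : T n (m + 1) = T n m + (m + 1 - m / n) := rfl
    by_cases hex : ∃ y ∈ A, E2 G (A.erase y) = 2 * T n m
    · obtain ⟨y, hy, hyE⟩ := hex
      have hstr := (hIH y hy).2 hyE
      classical
      have hk := key hn hstr (hcardE y hy) (Finset.notMem_erase y A)
        (S := (A.erase y).filter (fun x => G.Adj y x)) (fun x => by simp)
        (by rwa [Finset.insert_erase hy])
      rw [Finset.insert_erase hy] at hk
      have hdg : ((A.erase y).filter (fun x => G.Adj y x)).card = dg G A y := by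
        unfold dg
        congr 1
        ext x
        simp only [Finset.mem_filter, Finset.mem_erase]
        constructor
        · rintro ⟨⟨_, h1⟩, h2⟩; exact ⟨h1, h2⟩
        · rintro ⟨h1, h2⟩
          exact ⟨⟨h2.ne', h1⟩, h2⟩
      rw [hdg] at hk
      have hE := E2_erase (G := G) hy
      rw [hyE] at hE
      refine ⟨by omega, fun heq => hk.2 (by omega)⟩
    · push Not at hex
      have hlt : ∀ y ∈ A, E2 G (A.erase y) + 2 ≤ 2 * T n m := by
        intro y hy
        have h1 := (hIH y hy).1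
        have h2 := hex y hy
        obtain ⟨e, he⟩ := E2_even G (A.erase y)
        omega
      have hsum : ∑ y ∈ A, (E2 G (A.erase y) + 2) ≤ ∑ y ∈ A, 2 * T n m :=
        Finset.sum_le_sum hlt
      rw [Finset.sum_add_distrib, Finset.sum_const, Finset.sum_const, smul_eq_mul, smul_eq_mul,
        hA] at hsum
      have hse := sum_erase G A
      rw [hA] at hse
      have havg := T_avg hn m
      have hne : E2 G A < 2 * T n (m + 1) := by
        by_contra hcon
        push Not at hcon
        rw [hTs] at hcon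
        have hle : m / n ≤ m := Nat.div_le_self m n
        obtain ⟨D, hD⟩ : ∃ D, D = m + 1 - m / n := ⟨_, rfl⟩
        have hD' : m + 2 - m / n = D + 1 := by omega
        rw [hD'] at havg
        rw [← hD] at hcon
        -- m * E2 + 2 (m+2) ≤ (m+2) * 2 T
        have h1 : m * E2 G A + 2 * (m + 2) ≤ (m + 2) * (2 * T n m) := by nlinarith
        have h2 : m * (2 * (T n m + D)) ≤ m * E2 G A := Nat.mul_le_mul_left m hcon
        nlinarith
      exact ⟨hne.le, fun heq => absurd heq hne.ne⟩

end Pool.Agent.MP_a320f3_co
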