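import Mathlib
import Pool.Agent.MP_a320f3_co.Main

set_option linter.unusedSectionVars false

namespace Pool.Agent.MP_a320f3_co

open Finset

variable {V : Type*} [Fintype V] [LinearOrder V] {k : Type*} [Field k]

lemma chain_eq_zero {G : SimpleGraph V} {n : ℕ} (hn : G.cliqueNum = n + 1)
    {b : Finset V → k} (hb : IsChain G (n + 2) b) : b = 0 := by
  funext s
  by_contra hs
  obtain ⟨h1, h2⟩ := hb s hs
  have h3 := h1.card_le_cliqueNum (G := G)
  omega

lemma not_cyc {G : SimpleGraph V} {n : ℕ} (hn : G.cliqueNum = n + 1)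
    (hG : IsAcyclic k G) : ¬ Cyc k G (n + 1) (Finset.univ : Finset V) := by
  rintro ⟨c, h1, h2, h3⟩
  obtain ⟨b, hb, hbc⟩ := hG (n + 1) c (fun s hs => (h1 s hs).2) h2
  rw [chain_eq_zero hn hb, bd_zero] at hbc
  exact h3 hbc.symm

lemma E2_univ (G : SimpleGraph V) : E2 G Finset.univ = 2 * G.edgeSet.ncard := by
  classical
  have h := G.sum_degrees_eq_twice_card_edges
  unfold E2
  have h1 : ∀ y ∈ (Finset.univ : Finset V), dg G Finset.univ y = G.degree y := by
    intro y _
    unfold dg
    rw [← SimpleGraph.card_neighborFinset_eq_degree]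
    congr 1
    ext x
    simp
  rw [Finset.sum_congr rfl h1, h, Set.ncard_eq_toFinset_card', SimpleGraph.edgeFinset]

theorem vertex_edge_ineq (G : SimpleGraph V) (n : ℕ) (hn : G.cliqueNum = n + 1)
    (hG : IsAcyclic k G) :
    ((Fintype.card V : ℤ) - 1) ^ 2 ≤
      n * ((Fintype.card V : ℤ) ^ 2 - 2 * (G.edgeSet.ncard : ℤ) - 1) := by
  obtain ⟨K, hK⟩ := G.exists_isNClique_cliqueNum
  have hKle : K.card ≤ Fintype.card V := Finset.card_le_univ K
  rw [hK.card_eq, hn] at hKle
  rcases Nat.eq_zero_or_pos n with h0 | hpos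
  · subst h0
    -- no edges; acyclic forces a single vertex
    have hcard : Fintype.card V = 1 := by
      by_contra hcon
      obtain ⟨s, t, hst⟩ := Fintype.exists_pair_of_one_lt_card (α := V) (by omega)
      have hch : IsChain G 1 (dl {s} - dl {t} : Finset V → k) := by
        intro u hu
        by_cases hus : u = {s}
        · rw [hus]; simp
        · by_cases hut : u = {t}
          · rw [hut]; simp
          · exact absurd (by simp [dl_ne hus, dl_ne hut]) hu
      obtain ⟨b, hb, hbc⟩ := hG 1 _ hch (by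
        rw [bd_sub, bd_dl_singleton, bd_dl_singleton, sub_self])
      rw [chain_eq_zero hn hb, bd_zero] at hbc
      have := congrFun hbc {s}
      rw [Pi.sub_apply, dl_self, dl_ne (by simpa using hst)] at this
      simp at this
    rw [hcard]
    simp
  · obtain ⟨m, hm⟩ : ∃ m, Fintype.card V = m + 1 := ⟨Fintype.card V - 1, by omega⟩
    have h1 := (main (k := k) hpos m Finset.univ (by rw [Finset.card_univ, hm])
      (not_cyc hn hG)).1
    rw [E2_univ] at h1
    have h2 := T_bound hpos m
    have h3 : (G.edgeSet.ncard : ℤ) ≤ T n m := by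
      have : G.edgeSet.ncard ≤ T n m := by omega
      exact_mod_cast this
    rw [hm]
    push_cast
    have hn' : (0 : ℤ) ≤ n := by positivity
    nlinarith [mul_le_mul_of_nonneg_left h3 hn']

end Pool.Agent.MP_a320f3_co
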